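import Pool.Agent.helper53.ORT.Spec

/-! Row `ort:QD`. -/

set_option autoImplicit false

namespace Pool.Agent.ORT

open Module Pool.Agent.GS

theorem QD_dual {F V : Type} [Field F] [AddCommGroup V] [Module F V] [FiniteDimensional F V]
    (B : LinearMap.BilinForm F V) (hB : Sym B) {a b : V} (h : ∀ c : F, a ≠ c • b) :
    ∃ x, B a x = 1 ∧ B b x = 0 := by
  by_contra hcon
  have h1 : ∀ x, B b x = 0 → B a x = 0 := by
    intro x hx
    by_contra hax
    refine hcon ⟨(B a x)⁻¹ • x, ?_, ?_⟩
    · rw [map_smul, smul_eq_mul, inv_mul_cancel₀ hax]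
    · rw [map_smul, hx, smul_zero]
  have h2 : B a ∈ Submodule.span F (Set.range fun _ : Fin 1 => B b) := by
    refine mem_span_of_iInf_ker_le_ker ?_
    intro x hx
    rw [Submodule.mem_iInf] at hx
    have hx0 := hx 0
    rw [LinearMap.mem_ker] at hx0 ⊢
    exact h1 x hx0
  have h3 : (Set.range fun _ : Fin 1 => B b) = {B b} := by
    ext z
    simp
  rw [h3, Submodule.mem_span_singleton] at h2
  obtain ⟨c, hc⟩ := h2
  refine h c ?_
  have h4 : a - c • b = 0 := by
    refine hB.nd _ fun z => ?_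
    rw [map_sub, map_smul, hc, sub_self, LinearMap.zero_apply]
  exact sub_eq_zero.1 h4

theorem QD_fx {F V : Type} [Field F] [AddCommGroup V] [Module F V] [FiniteDimensional F V]
    (B : LinearMap.BilinForm F V) (a b c d : V) :
    ∃ U : Submodule F V, finrank F V ≤ finrank F U + 4 ∧
      ∀ u ∈ U, B a u = 0 ∧ B b u = 0 ∧ B c u = 0 ∧ B d u = 0 := by
  let φ : V →ₗ[F] (Fin 4 → F) := LinearMap.pi ![B a, B b, B c, B d]
  refine ⟨LinearMap.ker φ, ?_, ?_⟩
  · have h1 := LinearMap.finrank_range_add_finrank_ker φ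
    have h2 : finrank F (LinearMap.range φ) ≤ 4 := by
      have := Submodule.finrank_le (LinearMap.range φ)
      rwa [Module.finrank_fin_fun] at this
    omega
  · intro u hu
    rw [LinearMap.mem_ker] at hu
    exact ⟨congrFun hu 0, congrFun hu 1, congrFun hu 2, congrFun hu 3⟩

theorem QD (se : SE_stmt) (sgo : SGO_stmt) : QD_stmt := by
  intro F V _ _ _ _ _ B hch hB hn y ν hy hns μ hq κ
  have h2 : (2 : F) ≠ 0 := Ring.two_ne_zero hch
  have hν := hy.ne
  have hlin : Lin F y := ⟨hy.add, fun c v => hy.smul c v⟩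
  have hform : ∀ u v, B (y u) (y v) = ν * B u v := fun u v => hy.form u v
  obtain ⟨v, hv, hvy⟩ : ∃ v, B v v = 0 ∧ ∀ c : F, y v ≠ c • v := by
    by_contra hcon
    have hcon' : ∀ v, B v v = 0 → ∃ c : F, y v = c • v := by
      intro v hv
      by_contra h
      exact hcon ⟨v, hv, fun c hc => h ⟨c, hc⟩⟩
    obtain ⟨c, hc⟩ := se B hch hB hn y hlin hcon'
    obtain ⟨x, hx⟩ := hns c
    exact hx (hc x)
  have hyy : B (y v) (y v) = 0 := by rw [hform, hv, mul_zero]
  have hvyv : B v (y v) = 0 := by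
    have h := hform v (y v)
    rw [hq, map_sub, map_smul, map_smul, hyy, hB.symm (y v) v] at h
    simp only [smul_eq_mul, mul_zero, zero_sub] at h
    have h' : 2 * ν * B v (y v) = 0 := by linear_combination -h
    exact (mul_eq_zero.1 h').resolve_left (mul_ne_zero h2 hν)
  have hyvv : B (y v) v = 0 := by rw [hB.symm, hvyv]
  have hv0 : v ≠ 0 := by
    intro h0
    refine hvy 0 ?_
    rw [h0, smul_zero]
    have := hlin.2 0 0
    simpa using this
  have hind : ∀ c : F, v ≠ c • y v := by
    intro c hc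
    by_cases hc0 : c = 0
    · rw [hc0, zero_smul] at hc
      exact hv0 hc
    · refine hvy c⁻¹ ?_
      rw [eq_inv_smul_iff₀ hc0]
      exact hc.symm
  obtain ⟨w0, hw1, hw2⟩ := QD_dual B hB hind
  obtain ⟨w, hvw, hyw, hww⟩ : ∃ w, B v w = 1 ∧ B (y v) w = 0 ∧ B w w = 0 := by
    refine ⟨w0 - (B w0 w0 / 2) • v, ?_, ?_, ?_⟩
    · rw [map_sub, map_smul, hv, hw1, smul_zero, sub_zero]
    · rw [map_sub, map_smul, hw2, hyvv, smul_zero, sub_zero]
    · simp only [map_sub, map_smul, LinearMap.sub_apply, LinearMap.smul_apply, smul_eq_mul, hv, hw1,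
        hB.symm w0 v]
      field_simp
      ring
  set w' : V := y⁻¹ w with hw'
  have hyw' : y w' = w := pinv y w
  have hvw' : B v w' = 0 := by
    have h := hform v w'
    rw [hyw', hyw] at h
    exact (mul_eq_zero.1 h.symm).resolve_left hν
  have hyvw' : B (y v) w' = -1 := by
    have h := hform (y v) w'
    rw [hyw', hq] at h
    simp only [map_sub, map_smul, LinearMap.sub_apply, LinearMap.smul_apply, smul_eq_mul, hyw,
      hvw] at h
    have h' : ν * (B (y v) w' + 1) = 0 := by linear_combination -h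
    have := (mul_eq_zero.1 h').resolve_left hν
    linear_combination this
  have hw'w' : B w' w' = 0 := by
    have h := hform w' w'
    rw [hyw', hww] at h
    exact (mul_eq_zero.1 h.symm).resolve_left hν
  have hd1 : B v (κ • w') = 0 := by rw [map_smul, hvw', smul_zero]
  have hd2 : B v (-(κ • w')) = 0 := by rw [map_neg, hd1, neg_zero]
  have hd3 : B (y v) (ν⁻¹ • (κ • w)) = 0 := by rw [map_smul, map_smul, hyw, smul_zero, smul_zero]
  have hcomm : y * sg B v (κ • w') * y⁻¹ * (sg B v (κ • w'))⁻¹ =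
      sg B (y v) (ν⁻¹ • (κ • w)) * sg B v (-(κ • w')) := by
    rw [sg_conj hB h2 hy hv hd1, sg_inv hB h2 hv hd1, hlin.2, hyw']
  have hNd1 : B (-(κ • w')) (-(κ • w')) = 0 := by
    simp only [map_neg, map_smul, LinearMap.neg_apply, LinearMap.smul_apply, hw'w', smul_zero,
      neg_zero]
  have hNd2 : B (ν⁻¹ • (κ • w)) (ν⁻¹ • (κ • w)) = 0 := by
    simp only [map_smul, LinearMap.smul_apply, hww, smul_zero]
  have e1 : ∀ x, sg B v (-(κ • w')) x = x - (κ * B x v) • w' + (κ * B x w') • v := by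
    intro x
    rw [sg_apply hB h2 hv hd2, hNd1]
    simp only [map_neg, map_smul, smul_eq_mul]
    match_scalars <;> ring
  have e2 : ∀ x, sg B (y v) (ν⁻¹ • (κ • w)) x =
      x + (ν⁻¹ * κ * B x (y v)) • w - (ν⁻¹ * κ * B x w) • y v := by
    intro x
    rw [sg_apply hB h2 hyy hd3, hNd2]
    simp only [map_smul, smul_eq_mul]
    match_scalars <;> ring
  refine ⟨sg B v (κ • w'), sgo B hch hB hn v (κ • w') hv hd1, ?_, ?_⟩
  · rw [hcomm]
    refine ⟨v, y v, !![1, -κ; -κ / ν, 1 + κ ^ 2 / ν], ?_, ?_, ?_, ?_, ?_⟩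
    · rw [LinearIndependent.pair_iff]
      intro s t hst
      by_cases ht : t = 0
      · subst ht
        rw [zero_smul, add_zero] at hst
        exact ⟨(smul_eq_zero.1 hst).resolve_right hv0, rfl⟩
      · exfalso
        refine hvy (-(t⁻¹ * s)) ?_
        have : t • y v = -(s • v) := by rw [eq_neg_iff_add_eq_zero, add_comm]; exact hst
        have h' : y v = t⁻¹ • (t • y v) := by rw [smul_smul, inv_mul_cancel₀ ht, one_smul]
        rw [h', this, smul_neg, smul_smul, neg_smul]
    · rw [Matrix.det_fin_two_of]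
      field_simp
      ring
    · rw [Matrix.trace_fin_two_of]
      ring
    · rw [Equiv.Perm.mul_apply, e1, hv, hvw', mul_zero, zero_smul, zero_smul, sub_zero, add_zero, e2,
        hvyv, hvw]
      simp only [Matrix.of_apply, Matrix.cons_val', Matrix.cons_val_zero, Matrix.cons_val_one,
        Matrix.cons_val_fin_one]
      match_scalars <;> field_simp <;> ring
    · rw [Equiv.Perm.mul_apply, e1, hyvv, hyvw', e2]
      simp only [map_sub, map_add, map_smul, LinearMap.sub_apply, LinearMap.add_apply,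
        LinearMap.smul_apply, smul_eq_mul, hvyv, hyy, hyw, hvw]
      simp only [Matrix.of_apply, Matrix.cons_val', Matrix.cons_val_zero, Matrix.cons_val_one,
        Matrix.cons_val_fin_one]
      match_scalars <;> field_simp <;> ring
  · rw [hcomm]
    obtain ⟨U, hU, hU'⟩ := QD_fx B v w' (y v) w
    refine ⟨U, hU, ?_⟩
    intro u hu
    obtain ⟨h1, h3, h4, h5⟩ := hU' u hu
    rw [Equiv.Perm.mul_apply, e1, hB.symm u v, h1, hB.symm u w', h3, mul_zero, zero_smul, zero_smul,
      sub_zero, add_zero, e2, hB.symm u (y v), h4, hB.symm u w, h5, mul_zero, zero_smul, zero_smul,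
      sub_zero, add_zero]

end Pool.Agent.ORT
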